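import Pool.Agent.Helper8.LV.Rigid
import Pool.Agent.Helper49.LV.KeyLine

/-! # LV-RIGIDLINE: rigidity of the line

Copy of `Helper8.LV.rigid` (`C` empty) with `key_line` instead of `key`. -/

set_option autoImplicit false

namespace Pool.Agent.Helper49.LV

open scoped BigOperators
open Pool.Agent.Helper8.LG
open Pool.Agent.Helper8.LV (Fam Mov Over)

/-- One side: `P j l` is integral over `E₀[t]`. -/
theorem rl_side {E : Type*} [Field E] [CharZero E] {σ ι τ P : Type*} [Fintype σ]
    [DecidableEq σ] [Fintype ι] [Fintype τ] (d : ι → ℕ) (a : (i : ι) → Sym σ (d i) → E)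
    (D : P → Derivation ℤ E E) (θ : τ → P → E) (Z : Finset ι)
    (x : σ → E) (hU : ∀ i ∉ Z, form (a i) x ≠ 0)
    (E₀ : Subfield E) (t : E) (ht : Transcendental E₀ t)
    (hfin : FiniteDimensional (Subfield.closure ((E₀ : Set E) ∪ {t})) E)
    (hstab : ∀ p, ∀ f ∈ intCl E₀ t, D p f ∈ intCl E₀ t)
    (ha : ∀ i J, a i J ∈ E₀) (hθ : ∀ j s, θ j s ∈ E₀) {n : ℕ} (c : Fin n → E)
    (hDc : ∀ p r, D p (c r) = 0)
    (hc : ∀ O : ValuationSubring E, (∀ f ∈ E₀, f ∈ O) → (∀ r, c r ∈ O) →
      ∀ i ∉ Z, ∀ J : Sym σ (d i), mon x J / form (a i) x ∈ O)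
    (M : σ → σ → E) (hM : KeyP d a D θ Z x M) (j l : σ) : M j l ∈ intCl E₀ t := by
  obtain ⟨h1, h2⟩ := intCl_dedekind E₀ t ht hfin
  haveI := h1
  haveI := h2
  have hE₀R : ∀ f ∈ E₀, f ∈ intCl E₀ t := fun f hf =>
    rg_mem_intCl E₀ t (Subring.subset_closure (Or.inl hf))
  have hQ : ∀ n : ℕ, n ≠ 0 → ((n : E))⁻¹ ∈ intCl E₀ t := fun n _ =>
    hE₀R _ (inv_mem (natCast_mem E₀ n))
  apply mem_of (intCl E₀ t)
  intro O hO
  have hE₀O : ∀ f ∈ E₀, f ∈ O := fun f hf => hO (hE₀R f hf)
  have hbdd : Bdd D 1 O := bdd_of (intCl E₀ t) D 1 (one_mem _)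
    (fun p f hf => by rw [one_mul]; exact hstab p f hf) O hO
  have hDO : ∀ p, ∀ f ∈ O, D p f ∈ O := fun p f hf => by
    have := hbdd.2 p f hf
    rwa [one_mul] at this
  have hrow : ∀ i ∉ Z, RowBdd D 1 O x (form (a i)) 1 0 := by
    intro i hiZ j hj hprim
    have hform := rg_form_div (a i) x (x j)
    have hform0 : form (a i) (fun l => x l / x j) ≠ 0 := by
      rw [hform]
      exact div_ne_zero (hU i hiZ) (pow_ne_zero _ hj)
    have hformO : form (a i) (fun l => x l / x j) ∈ O := by
      unfold form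
      refine sum_mem fun J _ => mul_mem (hE₀O _ (ha i J)) ?_
      unfold mon
      refine multiset_prod_mem _ fun z hz => ?_
      obtain ⟨l, -, rfl⟩ := Multiset.mem_map.1 hz
      exact hprim l
    simp only [one_mul, pow_zero, div_one]
    refine ⟨one_mem O, fun p => ?_⟩
    by_cases hcO : ∀ r, c r ∈ O
    · have h3 := hc O hE₀O hcO i hiZ (Sym.replicate (d i) j)
      rw [rg_mon_replicate] at h3
      have h4 : x j ^ d i / form (a i) x = (form (a i) fun l => x l / x j)⁻¹ := by
        rw [hform, inv_div]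
      rw [h4] at h3
      rw [div_eq_mul_inv]
      exact mul_mem (hDO p _ hformO) h3
    · push Not at hcO
      obtain ⟨r, hr⟩ := hcO
      have hr0 : c r ≠ 0 := by
        intro h
        rw [h] at hr
        exact hr (zero_mem O)
      have h3 := log_of (intCl E₀ t) hQ D O hO 1 hbdd (c r) hr0 (Or.inl hr)
        (fun p => by rw [hDc, zero_div, mul_zero]; exact zero_mem O) _ hform0 p
      rwa [one_mul] at h3
  have h5 := hM O 1 hbdd (fun j s => by rw [one_mul]; exact hE₀O _ (hθ j s)) hrow j l
  rwa [one_pow, one_mul] at h5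

theorem rigid_line {k L E : Type*} [Field k] [Field L] [Field E] [CharZero E] [Algebra k L]
    [Algebra L E] [Algebra k E] [IsScalarTower k L E] {n : ℕ} (c : Fin n → E)
    (hgen : IntermediateField.adjoin L (Set.range c) = ⊤) (B : Set (Fin n))
    (hB : AlgebraicIndependent L (fun b : B => c b))
    (halg : ∀ r, IsAlgebraic (IntermediateField.adjoin k (c '' B)) (c r))
    {σ ι τ : Type*} [Fintype σ] [DecidableEq σ] [Fintype ι] [DecidableEq ι] [Fintype τ]
    (d b q : ι → ℕ) (hq : ∀ i, 0 < q i) (a aA : (i : ι) → Sym σ (d i) → L)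
    (ap : (i : ι) → Sym σ (b i) → L) (ah : (i : ι) → Sym σ (q i) → L)
    (hF : Fam d b q a aA ap ah) (hAk : Over k aA) (hpk : Over k ap)
    (D : Ix σ q → Derivation ℤ E E) (jj : τ → Ix σ q) (θ : τ → Ix σ q → L)
    (hD : Dual q (fun i J => algebraMap L E (ah i J)) D jj fun j s => algebraMap L E (θ j s))
    (hDL : ∀ p b, ∃ b', D p (algebraMap L E b) = algebraMap L E b')
    (hDk : ∀ p (b : k), D p (algebraMap k E b) = 0)
    (hDc : ∀ p r, D p (c r) = 0)
    (Z : Finset ι) (w : ℕ)
    (hw1 : 2 * w + 1 + Fintype.card τ ≤ ∑ i, q i + Z.card) (hw2 : w + 2 ≤ ∑ i, q i)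
    (x : σ → E) (i₀ j₁ : σ) (hx : x i₀ = 1) (hj : j₁ ≠ i₀)
    (hZ : ∀ i ∈ Z, form (fun J => algebraMap L E (a i J)) x = 0)
    (hU : ∀ i ∉ Z, form (fun J => algebraMap L E (a i J)) x ≠ 0)
    (hPx : ∀ i, form (fun J => algebraMap L E (ap i J)) x ≠ 0)
    (hint : ∀ i ∉ Z, ∀ J : Sym σ (d i),
      mon x J / form (fun J => algebraMap L E (a i J)) x ∈ Algebra.adjoin L (Set.range c))
    (hm : MinorsVanish D x w) :
    ∃ δ : σ → E, (∃ j l, x j * δ l - x l * δ j ≠ 0) ∧
      ∀ j l, IsAlgebraic L (x j * δ l - x l * δ j) := by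
  classical
  have hmov : Mov d b q (fun i J => algebraMap L E (a i J)) (fun i J => algebraMap L E (aA i J))
      (fun i J => algebraMap L E (ap i J)) (fun i J => algebraMap L E (ah i J)) D :=
    (hF.map (algebraMap L E)).mov (k := k) hAk.map hpk.map D hDk
  obtain ⟨δ, hδ, hδ2⟩ := key_line d b q hq (fun i J => algebraMap L E (a i J))
    (fun i J => algebraMap L E (aA i J)) (fun i J => algebraMap L E (ap i J))
    (fun i J => algebraMap L E (ah i J)) D jj
    (fun j s => algebraMap L E (θ j s)) hD hmov Z x i₀ j₁ hx hj hZ hU hPx w hw1 hw2 hm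
  -- the field `F = E₀(t)`
  have hrange : (Set.range fun b : B => c b) = c '' B := by
    ext z
    constructor
    · rintro ⟨b, rfl⟩
      exact ⟨b, b.2, rfl⟩
    · rintro ⟨b, hb, rfl⟩
      exact ⟨⟨b, hb⟩, rfl⟩
  have halgF : ∀ (F : Subfield E), (∀ b : k, algebraMap k E b ∈ F) → (∀ b ∈ B, c b ∈ F) →
      ∀ r, IsAlgebraic F (c r) := by
    intro F hkF hBF r
    refine rg_alg (R₁ := IntermediateField.adjoin k (c '' B)) (fun s => ?_) (halg r)
    have h1 : (IntermediateField.adjoin k (c '' B)).toSubfield ≤ F := by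
      rw [IntermediateField.adjoin_toSubfield, Subfield.closure_le]
      rintro z (⟨b, rfl⟩ | ⟨b, hb, rfl⟩)
      · exact hkF b
      · exact hBF b hb
    exact ⟨⟨s, h1 s.2⟩, rfl⟩
  have hfinF : ∀ (F : Subfield E), (∀ b : L, algebraMap L E b ∈ F) → (∀ b ∈ B, c b ∈ F) →
      FiniteDimensional F E := by
    intro F hLF hBF
    have hkF : ∀ b : k, algebraMap k E b ∈ F := fun b => by
      rw [IsScalarTower.algebraMap_apply k L E]
      exact hLF _
    have h1 : FiniteDimensional F (IntermediateField.adjoin F (Set.range c)) :=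
      IntermediateField.finiteDimensional_adjoin (by
        rintro z ⟨r, rfl⟩
        exact (halgF F hkF hBF r).isIntegral)
    have h2 : IntermediateField.adjoin F (Set.range c) = ⊤ := by
      rw [eq_top_iff]
      intro z _
      have hz : z ∈ IntermediateField.adjoin L (Set.range c) := by rw [hgen]; trivial
      have h3 : (IntermediateField.adjoin L (Set.range c)).toSubfield ≤
          (IntermediateField.adjoin F (Set.range c)).toSubfield := by
        rw [IntermediateField.adjoin_toSubfield, Subfield.closure_le]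
        rintro z (⟨b, rfl⟩ | hz)
        · exact (IntermediateField.adjoin F (Set.range c)).algebraMap_mem ⟨_, hLF b⟩
        · exact IntermediateField.subset_adjoin F _ hz
      exact h3 hz
    rw [h2] at h1
    exact Module.Finite.equiv (IntermediateField.topEquiv (F := F) (E := E)).toLinearEquiv
  refine ⟨δ, hδ, fun j l => ?_⟩
  refine exchange (fun b : B => c b) hB (x j * δ l - x l * δ j) ?_ fun b => ?_
  · -- algebraic over `L(c_B)`
    have h1 := hfinF (IntermediateField.adjoin L (Set.range fun b : B => c b)).toSubfield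
      (fun b => (IntermediateField.adjoin L (Set.range fun b : B => c b)).algebraMap_mem b)
      (fun b hb => IntermediateField.subset_adjoin L _ ⟨⟨b, hb⟩, rfl⟩)
    have h2 : IsAlgebraic (IntermediateField.adjoin L (Set.range fun b : B => c b)).toSubfield
        (x j * δ l - x l * δ j) := Algebra.IsAlgebraic.isAlgebraic _
    exact rg_alg (fun s => ⟨⟨s, s.2⟩, rfl⟩) h2
  · -- algebraic over `L(c_(B - b))`
    set S₀ : Set E := (fun b : B => c b) '' {b}ᶜ with hS₀
    set E₀ : Subfield E := (IntermediateField.adjoin L S₀).toSubfield with hE₀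
    have hE₀cl : E₀ = Subfield.closure (Set.range (algebraMap L E) ∪ S₀) :=
      IntermediateField.adjoin_toSubfield L S₀
    have hLE₀ : ∀ z : L, algebraMap L E z ∈ E₀ := fun z =>
      (IntermediateField.adjoin L S₀).algebraMap_mem z
    have hSE₀ : ∀ z ∈ S₀, z ∈ E₀ := fun z hz => IntermediateField.subset_adjoin L _ hz
    have hcE₀ : ∀ b' ∈ B, b' ≠ b → c b' ∈ E₀ := fun b' hb' hne => by
      refine hSE₀ _ ⟨⟨b', hb'⟩, ?_, rfl⟩
      intro h
      apply hne
      rw [Set.mem_singleton_iff] at h
      rw [← h]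
    have htr : Transcendental E₀ (c b) := by
      have h1 : Transcendental (Algebra.adjoin L S₀) (c b) :=
        hB.transcendental_adjoin (s := {b}ᶜ) (i := b) (fun h => h rfl)
      have h2 := (IntermediateField.transcendental_adjoin_iff (F := L) (s := S₀)).2 h1
      intro h3
      exact h2 (rg_alg (fun s => ⟨⟨s, s.2⟩, rfl⟩) h3)
    -- the derivations
    have hDE₀ : ∀ p, ∀ f ∈ E₀, D p f ∈ E₀ := by
      intro p
      rw [hE₀cl]
      apply rg_stable
      rintro f (⟨z, rfl⟩ | hf)
      · obtain ⟨z', hz'⟩ := hDL p z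
        rw [hz']
        exact Subfield.subset_closure (Or.inl ⟨z', rfl⟩)
      · obtain ⟨b', -, rfl⟩ := hf
        show D p (c b') ∈ _
        rw [hDc]
        exact zero_mem _
    set k₀ : Subfield E := (IntermediateField.adjoin k S₀).toSubfield with hk₀
    have hk₀cl : k₀ = Subfield.closure (Set.range (algebraMap k E) ∪ S₀) :=
      IntermediateField.adjoin_toSubfield k S₀
    have hk₀E₀ : k₀ ≤ E₀ := by
      rw [hk₀cl, Subfield.closure_le]
      rintro z (⟨z, rfl⟩ | hz)
      · rw [IsScalarTower.algebraMap_apply k L E]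
        exact hLE₀ _
      · exact hSE₀ z hz
    have hDk₀ : ∀ p, ∀ f ∈ k₀, D p f = 0 := by
      intro p
      rw [hk₀cl]
      apply rg_kill
      rintro f (⟨z, rfl⟩ | hf)
      · exact hDk p z
      · obtain ⟨b', -, rfl⟩ := hf
        exact hDc p b'
    -- both sides
    have hside : ∀ t : E, (t = c b ∨ t = (c b)⁻¹) → Transcendental E₀ t ∧
        FiniteDimensional (Subfield.closure ((E₀ : Set E) ∪ {t})) E ∧
        x j * δ l - x l * δ j ∈ intCl E₀ t := by
      intro t ht
      have htc : c b ∈ Subfield.closure ({t} : Set E) := by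
        rcases ht with h | h
        · rw [← h]
          exact Subfield.subset_closure rfl
        · have h1 : c b = t⁻¹ := by rw [h, inv_inv]
          rw [h1]
          exact inv_mem (Subfield.subset_closure rfl)
      have htt : Transcendental E₀ t := by
        rcases ht with h | h
        · rw [h]
          exact htr
        · rw [h]
          intro h1
          exact htr (by simpa using h1.inv)
      have hF1 : ∀ z : L, algebraMap L E z ∈ Subfield.closure ((E₀ : Set E) ∪ {t}) := fun z =>
        Subfield.subset_closure (Or.inl (hLE₀ z))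
      have hF2 : ∀ b' ∈ B, c b' ∈ Subfield.closure ((E₀ : Set E) ∪ {t}) := by
        intro b' hb'
        by_cases hne : b' = b
        · rw [hne]
          exact Subfield.closure_mono (Set.subset_union_right) htc
        · exact Subfield.subset_closure (Or.inl (hcE₀ b' hb' hne))
      have hfin := hfinF _ hF1 hF2
      refine ⟨htt, hfin, ?_⟩
      have hDt : ∀ p, D p t = 0 := by
        intro p
        rcases ht with h | h
        · rw [h]
          exact hDc p b
        · rw [h, (D p).leibniz_inv, hDc, smul_zero]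
      have hstab := intCl_stable E₀ t D hDE₀ hDt k₀ hk₀E₀ hDk₀ (Set.range c)
        (Set.finite_range c) (by rintro p z ⟨r, rfl⟩; exact hDc p r) (by
          rintro z ⟨r, rfl⟩
          refine halgF _ (fun z => ?_) (fun b' hb' => ?_) r
          · exact Subfield.subset_closure
              (Or.inl ((IntermediateField.adjoin k S₀).algebraMap_mem z))
          · by_cases hne : b' = b
            · rw [hne]
              exact Subfield.closure_mono (Set.subset_union_right) htc
            · refine Subfield.subset_closure (Or.inl ?_)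
              refine IntermediateField.subset_adjoin k S₀ ⟨⟨b', hb'⟩, ?_, rfl⟩
              intro h
              apply hne
              rw [Set.mem_singleton_iff] at h
              rw [← h]) (by
          rw [eq_top_iff]
          intro z _
          have hz : z ∈ (IntermediateField.adjoin L (Set.range c)).toSubfield := by
            rw [hgen]; trivial
          rw [IntermediateField.adjoin_toSubfield] at hz
          refine Subfield.closure_mono ?_ hz
          rintro z (⟨z, rfl⟩ | hz)
          · exact Or.inl (Or.inl (hLE₀ z))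
          · exact Or.inr hz)
      refine rl_side d (fun i J => algebraMap L E (a i J)) D
        (fun j s => algebraMap L E (θ j s)) Z x hU E₀ t
        htt hfin hstab (fun i J => hLE₀ _) (fun j s => hLE₀ _) c hDc ?_ _ hδ2 j l
      intro O hO1 hO2 i hiZ J
      have h1 := hint i hiZ J
      have h2 : (Algebra.adjoin L (Set.range c)).toSubring ≤ O.toSubring := by
        rw [Algebra.adjoin_eq_ring_closure, Subring.closure_le]
        rintro z (⟨z, rfl⟩ | ⟨r, rfl⟩)
        · exact hO1 _ (hLE₀ z)
        · exact hO2 r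
      exact h2 h1
    obtain ⟨ht1, hfin1, h1⟩ := hside (c b) (Or.inl rfl)
    obtain ⟨-, -, h2⟩ := hside (c b)⁻¹ (Or.inr rfl)
    have hP : IsAlgebraic E₀ (x j * δ l - x l * δ j) :=
      algebraic_of_mem E₀ (c b) ht1 hfin1 _ h1 h2
    exact rg_alg (fun s => ⟨⟨s, s.2⟩, rfl⟩) hP

end Pool.Agent.Helper49.LV
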