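import Pool.Agent.Helper49.LV.Killer
import Pool.Agent.Helper49.LG.LineBound

/-!
# Lines and moving linear systems

`gen_line`: a line with a point `y` where all `P_i(y) ≠ 0` is not contained in all the `F_i = 0`.
`no_two`: the `F_i` do not all vanish in at most two points of such a line.
-/

set_option autoImplicit false

namespace Pool.Agent.Helper49.LV

open scoped BigOperators
open Pool.Agent.Helper8.LG (Ix Dual form mon)
open Pool.Agent.Helper8.LV
open Pool.Agent.Helper49.LG (zero_of_nat lineP lineP_eval form_mul)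

/-- If a form vanishes at all `u + z v`, it vanishes at all `v + z u`. -/
theorem lineP_swap {E : Type*} [Field E] [CharZero E] {σ : Type*} [Fintype σ] [DecidableEq σ]
    {m : ℕ} (a : Sym σ m → E) (u v : σ → E) (h : lineP a u v = 0) : lineP a v u = 0 := by
  refine Polynomial.eq_zero_of_infinite_isRoot _ ?_
  have hinj : Function.Injective fun n : ℕ => ((n : E) + 1)⁻¹ := by
    intro n n' hn
    have h1 : (n : E) + 1 = n' + 1 := inv_injective hn
    exact Nat.cast_injective (add_right_cancel h1)
  refine Set.Infinite.mono ?_ (Set.infinite_range_of_injective hinj)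
  rintro _ ⟨n, rfl⟩
  have hn : (n : E) + 1 ≠ 0 := by exact_mod_cast Nat.succ_ne_zero n
  change Polynomial.IsRoot _ _
  rw [Polynomial.IsRoot, lineP_eval]
  have h1 := form_mul 1 ((n : E) + 1)⁻¹ a fun l => u l + ((n : E) + 1) * v l
  have h2 : form a (fun l => u l + ((n : E) + 1) * v l) = 0 := by
    rw [← lineP_eval, h, Polynomial.eval_zero]
  rw [h2, mul_zero] at h1
  simp only [one_mul] at h1
  rw [← h1]
  congr 1
  funext l
  field_simp
  ring

/-- A form which is not zero at a point of a line is not zero on it. -/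
theorem lineP_ne {E : Type*} [Field E] [CharZero E] {σ : Type*} [Fintype σ] [DecidableEq σ]
    {m : ℕ} (a : Sym σ m → E) (u v : σ → E) (s t : E)
    (h : form a (fun l => s * u l + t * v l) ≠ 0) : lineP a u v ≠ 0 := by
  intro h0
  apply h
  by_cases hs : s = 0
  · have h1 := lineP_swap a u v h0
    have h2 : form a v = 0 := by
      have h3 := lineP_eval a v u 0
      rw [h1, Polynomial.eval_zero] at h3
      rw [h3]
      congr 1
      funext l
      rw [zero_mul, add_zero]
    have h3 := form_mul 1 t a v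
    rw [h2, mul_zero] at h3
    simp only [one_mul] at h3
    rw [← h3]
    congr 1
    funext l
    rw [hs, zero_mul, zero_add]
  · have h1 := form_mul 1 s a fun l => u l + t / s * v l
    have h2 : form a (fun l => u l + t / s * v l) = 0 := by
      rw [← lineP_eval, h0, Polynomial.eval_zero]
    rw [h2, mul_zero] at h1
    simp only [one_mul] at h1
    rw [← h1]
    congr 1
    funext l
    field_simp

/-- A binary form vanishes if its product with a form not zero on the line vanishes. -/
theorem zero_of_mul {E : Type*} [Field E] [CharZero E] {σ : Type*} [Fintype σ] [DecidableEq σ]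
    {b : ℕ} (g : Sym σ b → E) (u v : σ → E) (hg : lineP g u v ≠ 0) (α β : σ)
    (hdet : u α * v β - u β * v α ≠ 0) (m : ℕ) (f : Fin (m + 1) → E)
    (h : ∀ n : ℕ, form g (fun l => u l + n * v l) *
      ∑ r : Fin (m + 1), f r * ((u α + n * v α) ^ (m - r) * (u β + n * v β) ^ (r : ℕ)) = 0)
    (r : Fin (m + 1)) : f r = 0 := by
  set S : Polynomial E := ∑ r : Fin (m + 1), Polynomial.C (f r) *
    ((Polynomial.C (u α) + Polynomial.X * Polynomial.C (v α)) ^ (m - r) *
      (Polynomial.C (u β) + Polynomial.X * Polynomial.C (v β)) ^ (r : ℕ)) with hS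
  have heval : ∀ z : E, S.eval z =
      ∑ r : Fin (m + 1), f r * ((u α + z * v α) ^ (m - r) * (u β + z * v β) ^ (r : ℕ)) := by
    intro z
    rw [hS, Polynomial.eval_finsetSum]
    refine Finset.sum_congr rfl fun r _ => ?_
    simp only [Polynomial.eval_mul, Polynomial.eval_C, Polynomial.eval_pow, Polynomial.eval_add,
      Polynomial.eval_X]
  have h1 : lineP g u v * S = 0 := by
    refine Polynomial.eq_zero_of_infinite_isRoot _ ?_
    refine Set.Infinite.mono ?_ (Set.infinite_range_of_injective
      (f := fun n : ℕ => (n : E)) Nat.cast_injective)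
    rintro _ ⟨n, rfl⟩
    change Polynomial.IsRoot _ _
    rw [Polynomial.IsRoot, Polynomial.eval_mul, lineP_eval, heval]
    exact h n
  have hS0 : S = 0 := (mul_eq_zero.1 h1).resolve_left hg
  refine zero_of_nat m f (u α) (u β) (v α) (v β) hdet (fun n => ?_) r
  rw [← heval, hS0, Polynomial.eval_zero]

/-- A line is not contained in all the hypersurfaces. -/
theorem gen_line {E : Type*} [Field E] [CharZero E] {σ ι τ : Type*} [Fintype σ] [DecidableEq σ]
    [Fintype ι] [DecidableEq ι] [Fintype τ] (d b q : ι → ℕ)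
    (a A : (i : ι) → Sym σ (d i) → E) (p : (i : ι) → Sym σ (b i) → E)
    (h : (i : ι) → Sym σ (q i) → E) (D : Ix σ q → Derivation ℤ E E)
    (jj : τ → Ix σ q) (θ : τ → Ix σ q → E) (hD : Dual q h D jj θ) (hM : Mov d b q a A p h D)
    (α β : σ) (hαβ : α ≠ β)
    (u v : σ → E) (huα : u α = 1) (huβ : u β = 0) (hvα : v α = 0) (hvβ : v β = 1)
    (y : σ → E) (hy : ∀ l, y l = y α * u l + y β * v l) (hPy : ∀ i, form (p i) y ≠ 0)
    (hcount : 2 * Fintype.card σ + Fintype.card τ ≤ ∑ i, (q i + 1) + 3) :
    ∃ (i : ι) (n : ℕ), form (a i) (fun l => u l + n * v l) ≠ 0 := by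
  classical
  by_contra hcon
  push Not at hcon
  have hcard : Fintype.card {l : σ // l ≠ α ∧ l ≠ β} + 2 = Fintype.card σ := by
    have h1 : Fintype.card {l : σ // l ≠ α ∧ l ≠ β} =
        (Finset.univ.filter fun l : σ => l ≠ α ∧ l ≠ β).card := Fintype.card_subtype _
    have h2 : (Finset.univ.filter fun l : σ => l ≠ α ∧ l ≠ β) = Finset.univ \ {α, β} := by
      ext l
      simp
    rw [h1, h2, Finset.card_sdiff_of_subset (Finset.subset_univ _), Finset.card_pair hαβ,
      Finset.card_univ]
    have h3 : 2 ≤ Fintype.card σ := by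
      rw [← Finset.card_pair hαβ]
      exact Finset.card_le_univ _
    omega
  obtain ⟨f, δ, ⟨i, r, hfr⟩, hδ, hform⟩ := exists_killer d b q a A p h D jj θ hD hM α β
    (κ := {l : σ // l ≠ α ∧ l ≠ β} × Bool) (fun m => if m.2 then u m.1 else v m.1) (by
      rw [Fintype.card_prod, Fintype.card_bool]
      omega)
  have hδu : ∀ l, δ (u l) = 0 := by
    intro l
    by_cases h1 : l = α
    · rw [h1, huα, Derivation.map_one_eq_zero]
    · by_cases h2 : l = β
      · rw [h2, huβ, map_zero]
      · exact hδ (⟨l, h1, h2⟩, true)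
  have hδv : ∀ l, δ (v l) = 0 := by
    intro l
    by_cases h1 : l = α
    · rw [h1, hvα, map_zero]
    · by_cases h2 : l = β
      · rw [h2, hvβ, Derivation.map_one_eq_zero]
      · exact hδ (⟨l, h1, h2⟩, false)
  have hPl : lineP (p i) u v ≠ 0 := by
    refine lineP_ne (p i) u v (y α) (y β) ?_
    have h1 : (fun l => y α * u l + y β * v l) = y := by
      funext l
      exact (hy l).symm
    rw [h1]
    exact hPy i
  apply hfr
  refine zero_of_mul (p i) u v hPl α β ?_ (q i) (f i) ?_ r
  · rw [huα, huβ, hvα, hvβ]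
    simp
  · intro n
    rw [← hform i (fun l => u l + n * v l), hcon i n, map_zero]
    intro l
    rw [map_add, hδu, zero_add, Derivation.leibniz, hδv, smul_zero, zero_add,
      Derivation.map_natCast, smul_zero]

/-- The forms do not all vanish in at most two points `u`, `v` of a line. -/
theorem no_two {E : Type*} [Field E] [CharZero E] {σ ι τ : Type*} [Fintype σ] [DecidableEq σ]
    [Fintype ι] [DecidableEq ι] [Fintype τ] (d b q : ι → ℕ)
    (a A : (i : ι) → Sym σ (d i) → E) (p : (i : ι) → Sym σ (b i) → E)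
    (h : (i : ι) → Sym σ (q i) → E) (D : Ix σ q → Derivation ℤ E E)
    (jj : τ → Ix σ q) (θ : τ → Ix σ q → E) (hD : Dual q h D jj θ) (hM : Mov d b q a A p h D)
    (u v : σ → E) (α β : σ) (hdet : u α * v β - u β * v α ≠ 0)
    (iu iv : σ) (hu : u iu = 1) (hv : v iv = 1)
    (s t : E) (hPy : ∀ i, form (p i) (fun l => s * u l + t * v l) ≠ 0)
    (U : Finset ι) (e : ι → E) (c : ι → ℕ)
    (he : ∀ i ∉ U, e i = 0)
    (heq : ∀ (i : ι) (n : ℕ), form (a i) (fun l => u l + n * v l) = e i * (n : E) ^ c i)
    (hcount : 2 * Fintype.card σ + U.card + Fintype.card τ < ∑ i, (q i + 1) + 2) : False := by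
  classical
  have hcard : ∀ j : σ, Fintype.card {l : σ // l ≠ j} + 1 = Fintype.card σ := by
    intro j
    have h1 : Fintype.card {l : σ // l ≠ j} = Fintype.card σ - 1 := by
      rw [Fintype.card_subtype_compl (fun l => l = j)]
      simp
    have h2 : 0 < Fintype.card σ := Fintype.card_pos_iff.2 ⟨j⟩
    omega
  obtain ⟨f, δ, ⟨i, r, hfr⟩, hδ, hform⟩ := exists_killer d b q a A p h D jj θ hD hM α β
    (κ := ({l : σ // l ≠ iu} ⊕ {l : σ // l ≠ iv}) ⊕ U)
    (Sum.elim (Sum.elim (fun l => u l) fun l => v l) fun i => e i) (by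
      rw [Fintype.card_sum, Fintype.card_sum, Fintype.card_coe]
      have h1 := hcard iu
      have h2 := hcard iv
      omega)
  have hδu : ∀ l, δ (u l) = 0 := by
    intro l
    by_cases h1 : l = iu
    · rw [h1, hu, Derivation.map_one_eq_zero]
    · exact hδ (Sum.inl (Sum.inl ⟨l, h1⟩))
  have hδv : ∀ l, δ (v l) = 0 := by
    intro l
    by_cases h1 : l = iv
    · rw [h1, hv, Derivation.map_one_eq_zero]
    · exact hδ (Sum.inl (Sum.inr ⟨l, h1⟩))
  have hδe : ∀ i, δ (e i) = 0 := by
    intro i
    by_cases h1 : i ∈ U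
    · exact hδ (Sum.inr ⟨i, h1⟩)
    · rw [he i h1, map_zero]
  apply hfr
  refine zero_of_mul (p i) u v (lineP_ne (p i) u v s t (hPy i)) α β hdet (q i) (f i) ?_ r
  intro n
  rw [← hform i (fun l => u l + n * v l), heq i n, Derivation.leibniz, hδe, smul_zero, add_zero]
  · have h1 : δ ((n : E) ^ c i) = 0 := by
      rw [Derivation.leibniz_pow, Derivation.map_natCast, smul_zero, smul_zero]
    rw [h1, smul_zero]
  · intro l
    rw [map_add, hδu, zero_add, Derivation.leibniz, hδv, smul_zero, zero_add,
      Derivation.map_natCast, smul_zero]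

end Pool.Agent.Helper49.LV
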