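import Pool.Agent.Helper8.LG.UltraCore
import Pool.Agent.Helper49.LV.RigidLine

/-! # LV-CORELINE: rigidity of the line inside a large field

Copy of `Helper8.LV.ul_core` (`C` empty) with `rigid_line` instead of `rigid`. -/

set_option autoImplicit false

namespace Pool.Agent.Helper49.LV

open scoped BigOperators
open Pool.Agent.Helper8.LG
open Pool.Agent.Helper8.LV (Fam Mov Over)

theorem ul_core_line {k L Ω : Type*} [Field k] [Field L] [Field Ω] [CharZero Ω] [Algebra k L]
    [Algebra L Ω] [Algebra k Ω] [IsScalarTower k L Ω]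
    (K : Subring Ω) (hkK : ∀ b : k, algebraMap k Ω b ∈ K) (hLD : UlDisj k (L := L) K)
    {n : ℕ} (c : Fin n → Ω) (hcK : ∀ r, c r ∈ K)
    {σ ι τ : Type*} [Fintype σ] [DecidableEq σ] [Fintype ι] [DecidableEq ι] [Fintype τ]
    (d b q : ι → ℕ) (hq : ∀ i, 0 < q i) (a aA : (i : ι) → Sym σ (d i) → L)
    (ap : (i : ι) → Sym σ (b i) → L) (ah : (i : ι) → Sym σ (q i) → L)
    (hFam : Fam d b q a aA ap ah) (hAk : Over k aA) (hpk : Over k ap)
    (D : Ix σ q → Derivation ℤ Ω Ω) (jj : τ → Ix σ q) (θ : τ → Ix σ q → L)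
    (hD : Dual q (fun i J => algebraMap L Ω (ah i J)) D jj fun j s => algebraMap L Ω (θ j s))
    (hDL : ∀ p b, ∃ b', D p (algebraMap L Ω b) = algebraMap L Ω b')
    (hDk : ∀ p (b : k), D p (algebraMap k Ω b) = 0)
    (hDc : ∀ p r, D p (c r) = 0)
    (Z : Finset ι) (w : ℕ)
    (hw1 : 2 * w + 1 + Fintype.card τ ≤ ∑ i, q i + Z.card) (hw2 : w + 2 ≤ ∑ i, q i)
    (x : σ → Ω) (i₀ j₁ : σ) (hx : x i₀ = 1) (hj : j₁ ≠ i₀) (G : Ω) (hG : G ≠ 0)
    (hGx : ∀ l, G * x l ∈ Algebra.adjoin L (Set.range c))
    (hZ : ∀ i ∈ Z, form (fun J => algebraMap L Ω (a i J)) x = 0)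
    (hU : ∀ i ∉ Z, form (fun J => algebraMap L Ω (a i J)) x ≠ 0)
    (hPx : ∀ i, form (fun J => algebraMap L Ω (ap i J)) x ≠ 0)
    (hint : ∀ i ∉ Z, ∀ J : Sym σ (d i),
      mon x J / form (fun J => algebraMap L Ω (a i J)) x ∈ Algebra.adjoin L (Set.range c))
    (hm : MinorsVanish D x w) :
    ∃ δ : σ → Ω, (∃ j l, x j * δ l - x l * δ j ≠ 0) ∧
      ∀ j l, IsAlgebraic L (x j * δ l - x l * δ j) := by
  classical
  set F : IntermediateField L Ω := IntermediateField.adjoin L (Set.range c) with hF
  have hsub : ∀ z ∈ Algebra.adjoin L (Set.range c), z ∈ F := fun z hz =>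
    IntermediateField.algebra_adjoin_le_adjoin L _ hz
  have hFcl : F.toSubfield = Subfield.closure (Set.range (algebraMap L Ω) ∪ Set.range c) :=
    IntermediateField.adjoin_toSubfield L _
  -- the generators
  set c' : Fin n → F := fun r => ⟨c r, IntermediateField.subset_adjoin L _ ⟨r, rfl⟩⟩ with hc'
  have himg : ∀ B : Set (Fin n), (F.val : F → Ω) '' (c' '' B) = c '' B := by
    intro B
    rw [← Set.image_comp]
    rfl
  have hrange : (F.val : F → Ω) '' (Set.range c') = Set.range c := by
    rw [← Set.image_univ, himg, Set.image_univ]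
  have hgen : IntermediateField.adjoin L (Set.range c') = ⊤ := by
    apply IntermediateField.lift_injective F
    rw [IntermediateField.lift_adjoin, IntermediateField.lift_top]
    have h1 : (Subtype.val : F → Ω) '' (Set.range c') = Set.range c := hrange
    rw [h1]
  obtain ⟨B, hB1, hB2⟩ := ul_basis (k := k) c'
  have hB3 : AlgebraicIndependent k (fun b : B => c b) :=
    (AlgHom.algebraicIndependent_iff (x := fun b : B => c' b) ((F.val).restrictScalars k)
      Subtype.val_injective).2 hB1
  have hB4 : AlgebraicIndependent L (fun b : B => c b) :=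
    ul_algInd K hkK hLD _ (fun b => hcK b) hB3
  have hB5 : AlgebraicIndependent L (fun b : B => c' b) :=
    (AlgHom.algebraicIndependent_iff (x := fun b : B => c' b) F.val Subtype.val_injective).1 hB4
  have halg : ∀ r, IsAlgebraic (IntermediateField.adjoin k (c' '' B)) (c' r) := by
    intro r
    have h1 := hB2 r
    obtain ⟨p, hp0, hp⟩ := h1
    set φ : Algebra.adjoin k (c' '' B) →+* IntermediateField.adjoin k (c' '' B) :=
      { toFun := fun z => ⟨z, IntermediateField.algebra_adjoin_le_adjoin k _ z.2⟩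
        map_one' := rfl
        map_mul' := fun _ _ => rfl
        map_zero' := rfl
        map_add' := fun _ _ => rfl } with hφ
    have hφi : Function.Injective φ := by
      intro u v huv
      apply Subtype.ext
      exact congrArg (fun z : IntermediateField.adjoin k (c' '' B) => (z : F)) huv
    refine ⟨p.map φ, ?_, ?_⟩
    · rwa [Ne, Polynomial.map_eq_zero_iff hφi]
    · rw [Polynomial.aeval_def, Polynomial.eval₂_map]
      exact hp
  -- the derivations
  have hst : ∀ p, ∀ f ∈ F, D p f ∈ F := by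
    intro p f hf
    have hf' : f ∈ F.toSubfield := hf
    rw [hFcl] at hf'
    have h1 := rg_stable (D p) (Set.range (algebraMap L Ω) ∪ Set.range c) ?_ f hf'
    · rw [← hFcl] at h1
      exact h1
    · rintro g (⟨z, rfl⟩ | ⟨r, rfl⟩)
      · obtain ⟨z', hz'⟩ := hDL p z
        rw [hz']
        exact Subfield.subset_closure (Or.inl ⟨z', rfl⟩)
      · rw [hDc]
        exact zero_mem _
  set δ : Ix σ q → Derivation ℤ F F := fun p =>
    Derivation.mk' (AddMonoidHom.toIntLinearMap
      { toFun := fun f => (⟨D p f, hst p f f.2⟩ : F)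
        map_zero' := Subtype.ext (map_zero (D p))
        map_add' := fun f g => Subtype.ext (map_add (D p) (f : Ω) g) })
      (fun f g => Subtype.ext ((D p).leibniz (f : Ω) g)) with hδ
  have hδv : ∀ p (f : F), ((δ p f : F) : Ω) = D p f := fun p f => rfl
  have hamap : ∀ b : L, ((algebraMap L F b : F) : Ω) = algebraMap L Ω b := fun b => rfl
  -- the point
  have hxF : ∀ l, x l ∈ F := by
    intro l
    have h1 : G ∈ F := by
      have := hsub _ (hGx i₀)
      rwa [hx, mul_one] at this
    have h2 : x l = G * x l / G := by field_simp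
    rw [h2]
    exact div_mem (hsub _ (hGx l)) h1
  set x' : σ → F := fun l => ⟨x l, hxF l⟩ with hx'
  have hform : ∀ i, ((form (fun J => algebraMap L F (a i J)) x' : F) : Ω) =
      form (fun J => algebraMap L Ω (a i J)) x := fun i =>
    ul_map_form (F.val : F →+* Ω) _ _
  have hmon : ∀ {r : ℕ} (J : Sym σ r), ((mon x' J : F) : Ω) = mon x J := fun J =>
    ul_map_mon (F.val : F →+* Ω) _ _
  have hcz : CharZero F := inferInstance
  have key := rigid_line (k := k) (L := L) (E := F) c' hgen B hB5 halg d b q hq a aA ap ah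
    hFam hAk hpk δ jj θ ?_ ?_ ?_ ?_ Z w hw1 hw2 x' i₀ j₁ (Subtype.ext hx) hj ?_ ?_ ?_ ?_ ?_
  · obtain ⟨δ', ⟨j, l, hδ'⟩, hδ2⟩ := key
    refine ⟨fun l => (δ' l : Ω), ⟨j, l, fun h0 => hδ' (Subtype.ext h0)⟩, fun j l => ?_⟩
    exact (hδ2 j l).algHom F.val
  · intro s r
    apply Subtype.ext
    have h1 := hD s r
    rw [hδv, hamap, h1]
    push_cast
    congr 1
    · split_ifs <;> rfl
    · refine Finset.sum_congr rfl fun j _ => ?_
      split_ifs <;> rfl
  · intro p b
    obtain ⟨b', hb'⟩ := hDL p b
    exact ⟨b', Subtype.ext hb'⟩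
  · intro p b
    exact Subtype.ext (hDk p b)
  · intro p r
    exact Subtype.ext (hDc p r)
  · intro i hi
    exact Subtype.ext ((hform i).trans (hZ i hi))
  · intro i hi h0
    apply hU i hi
    rw [← hform i, h0]
    rfl
  · intro i h0
    apply hPx i
    have h1 : ((form (fun J => algebraMap L F (ap i J)) x' : F) : Ω) =
      form (fun J => algebraMap L Ω (ap i J)) x := ul_map_form (F.val : F →+* Ω) _ _
    rw [← h1, h0]
    rfl
  · intro i hi1 J
    have h1 := hint i hi1 J
    rw [← hrange, ← AlgHom.map_adjoin] at h1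
    obtain ⟨z, hz1, hz2⟩ := h1
    have h2 : mon x' J / form (fun J => algebraMap L F (a i J)) x' = z := by
      apply Subtype.ext
      have h3 : (z : Ω) = mon x J / form (fun J => algebraMap L Ω (a i J)) x := hz2
      rw [h3]
      push_cast
      rw [hmon, hform]
    rw [h2]
    exact hz1
  · intro r s
    apply Subtype.ext
    have h1 := hm r s
    have h2 := RingHom.map_det (F.val : F →+* Ω) (Matrix.of fun s' t => col δ x' (s t) (r s'))
    have h3 : (F.val : F →+* Ω).mapMatrix (Matrix.of fun s' t => col δ x' (s t) (r s')) =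
        Matrix.of fun s' t => col D x (s t) (r s') := by
      ext s' t
      simp only [RingHom.mapMatrix_apply, Matrix.map_apply, Matrix.of_apply]
      rcases s t with _ | p
      · rfl
      · rfl
    rw [h3, h1] at h2
    exact h2

end Pool.Agent.Helper49.LV
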