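import Pool.Agent.Helper8.LG.Ultra
import Pool.Agent.Helper49.LV.CoreLine

/-! # LV-ULTRALINE: an infinite bounded set of points has infinitely many points on one line

Copy of `Helper8.LV.ultra` (`C` empty) with `ul_core_line` instead of `ul_core`: the `P*_jl` are
algebraic over `L`, hence constants `P_jl` in `L` (a polynomial has finitely many roots), and
`P_αβ x_l = x_α P_lβ + x_β P_αl` holds for a large set of members of the sequence. -/

set_option autoImplicit false

namespace Pool.Agent.Helper49.LV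

open scoped BigOperators
open Pool.Agent.Helper8.LG
open Pool.Agent.Helper8.LV (Fam Mov Over)

theorem ultra_line {k L : Type*} [Field k] [Field L] [CharZero L] [Algebra k L]
    {σ ι τ : Type*} [Fintype σ] [DecidableEq σ] [Fintype ι] [DecidableEq ι] [Fintype τ]
    (d b q : ι → ℕ) (hq : ∀ i, 0 < q i) (a aA : (i : ι) → Sym σ (d i) → L)
    (ap : (i : ι) → Sym σ (b i) → L) (ah : (i : ι) → Sym σ (q i) → L)
    (hFam : Fam d b q a aA ap ah) (hAk : Over k aA) (hpk : Over k ap)
    (D : Ix σ q → Derivation ℤ L L) (jj : τ → Ix σ q) (θ : τ → Ix σ q → L)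
    (hD : Dual q ah D jj θ)
    (hDk : ∀ p (c : k), D p (algebraMap k L c) = 0)
    (Z : Finset ι) (i₀ j₁ : σ) (hj : j₁ ≠ i₀) (w : ℕ)
    (hw1 : 2 * w + 1 + Fintype.card τ ≤ ∑ i, q i + Z.card) (hw2 : w + 2 ≤ ∑ i, q i)
    (V : Submodule k L) [FiniteDimensional k V] (S : Set (σ → L)) (hinf : S.Infinite)
    (hS : ∀ x ∈ S, x i₀ = 1 ∧ (∀ i ∈ Z, form (a i) x = 0) ∧ (∀ i ∉ Z, form (a i) x ≠ 0) ∧
      (∀ i, form (ap i) x ≠ 0) ∧ MinorsVanish D x w ∧ ∃ G : L, G ≠ 0 ∧ (∀ l, G * x l ∈ V) ∧
        ∀ i ∉ Z, ∀ J : Sym σ (d i), mon x J / form (a i) x ∈ V) :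
    ∃ (α β : σ) (u v : σ → L), α ≠ β ∧ u α = 1 ∧ u β = 0 ∧ v α = 0 ∧ v β = 1 ∧
      {x ∈ S | ∀ l, x l = x α * u l + x β * v l}.Infinite := by
  classical
  set X : ℕ → σ → L := fun m => (hinf.natEmbedding S m : σ → L) with hX
  have hXS : ∀ m, X m ∈ S := fun m => (hinf.natEmbedding S m).2
  have hXi : Function.Injective X := fun u v huv =>
    (hinf.natEmbedding S).injective (Subtype.ext huv)
  have hS' := fun m => hS (X m) (hXS m)
  choose hX0 hXZ hXU hXP hXm G hG0 hGx hint using hS'
  obtain ⟨Ω, instΩ, Q, hQ, hker⟩ := ul_exists L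
  let algLΩ : Algebra L Ω := (Q.comp (Pi.constRingHom ℕ L)).toAlgebra
  let algkΩ : Algebra k Ω := ((algebraMap L Ω).comp (algebraMap k L)).toAlgebra
  have : IsScalarTower k L Ω := IsScalarTower.of_algebraMap_eq fun _ => rfl
  have : CharZero Ω := charZero_of_injective_algebraMap (algebraMap L Ω).injective
  have halgL : ∀ b : L, algebraMap L Ω b = Q fun _ => b := fun _ => rfl
  have halgk : ∀ b : k, algebraMap k Ω b = Q fun _ => algebraMap k L b := fun _ => rfl
  -- the constants
  set K : Subring Ω := (Q.comp ((algebraMap k L).compLeft ℕ)).range with hK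
  have hQK : ∀ g : ℕ → k, Q (fun m => algebraMap k L (g m)) ∈ K := fun g => ⟨g, rfl⟩
  have hLD : UlDisj k (L := L) K := by
    intro J hJ T z hz hsum
    choose g hg using hz
    have hg' : ∀ b, Q (fun m => algebraMap k L (g b m)) = z b := fun b => hg b
    have h1 := ul_disj Q hker J hJ T g (by
      rw [← hsum]
      exact Finset.sum_congr rfl fun b _ => by rw [hg', halgL])
    intro b hb
    rw [← hg']
    exact h1 b hb
  -- the sequences
  set bV := Module.finBasis k V with hbV
  set r := Module.finrank k V with hr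
  set H : Type _ := σ ⊕ (Ix σ d) with hH
  set h : H → ℕ → L := fun η m' => Sum.elim (fun l => G m' * X m' l)
    (fun p : Ix σ d => if p.1 ∉ Z then mon (X m') p.2 / form (a p.1) (X m') else 0) η with hh
  have hhV : ∀ η m', h η m' ∈ V := by
    rintro (l | p) m'
    · exact hGx m' l
    · show (if p.1 ∉ Z then mon (X m') p.2 / form (a p.1) (X m') else 0) ∈ V
      by_cases hp : p.1 ∉ Z
      · rw [if_pos hp]
        exact hint m' p.1 hp p.2
      · rw [if_neg hp]
        exact V.zero_mem
  set c₀ : H × Fin r → Ω := fun ηj => Q fun m' =>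
    algebraMap k L (bV.repr ⟨h ηj.1 m', hhV ηj.1 m'⟩ ηj.2) with hc₀
  set eqv := (Fintype.equivFin (H × Fin r)).symm with heqv
  set c : Fin (Fintype.card (H × Fin r)) → Ω := fun s => c₀ (eqv s) with hc
  have hcmem : ∀ ηj, c₀ ηj ∈ Algebra.adjoin L (Set.range c) := fun ηj =>
    Algebra.subset_adjoin ⟨eqv.symm ηj, by rw [hc]; simp⟩
  have hhc : ∀ η, Q (h η) ∈ Algebra.adjoin L (Set.range c) := by
    intro η
    have h1 : Q (h η) = ∑ j, algebraMap L Ω (bV j : L) * c₀ (η, j) := by
      have h2 : h η = ∑ j, (fun _ => (bV j : L)) *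
          (fun m' => algebraMap k L (bV.repr ⟨h η m', hhV η m'⟩ j)) := by
        funext m'
        rw [Finset.sum_apply]
        have h3 := congrArg (Subtype.val : V → L) (bV.sum_repr ⟨h η m', hhV η m'⟩)
        rw [Submodule.coe_sum] at h3
        have h4 : ((⟨h η m', hhV η m'⟩ : V) : L) = h η m' := rfl
        rw [h4] at h3
        rw [← h3]
        refine Finset.sum_congr rfl fun j _ => ?_
        show _ = (bV j : L) * algebraMap k L (bV.repr ⟨h η m', hhV η m'⟩ j)
        rw [Submodule.coe_smul, Algebra.smul_def, mul_comm]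
      conv_lhs => rw [h2]
      rw [map_sum]
      exact Finset.sum_congr rfl fun j _ => by rw [map_mul]; rfl
    rw [h1]
    exact sum_mem fun j _ => mul_mem (Subalgebra.algebraMap_mem _ _) (hcmem _)
  -- the core
  have hform : ∀ i, form (fun J => algebraMap L Ω (a i J)) (fun l => Q fun m' => X m' l) =
      Q fun m' => form (a i) (X m') := fun i => (ul_Q_form Q (a i) X).symm
  have hcore := ul_core_line (k := k) (L := L) K (fun b => by rw [halgk]; exact hQK fun _ => b)
    hLD c (fun s => hQK _) d b q hq a aA ap ah hFam hAk hpk (fun p => ulDer Q hQ hker (D p)) jj θ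
    ?_ ?_ ?_ ?_ Z w hw1 hw2
    (fun l => Q fun m' => X m' l) i₀ j₁ ?_ hj (Q G) ?_ ?_ ?_ ?_ ?_ ?_ ?_
  · -- conclusion
    obtain ⟨δ, ⟨α, β, hαβ⟩, halg⟩ := hcore
    have hconst : ∀ z : Ω, IsAlgebraic L z → ∃ b : L, algebraMap L Ω b = z := by
      rintro z ⟨p, hp0, hp⟩
      obtain ⟨f, rfl⟩ := hQ z
      have h1 : ∀ᶠ m' in (Filter.hyperfilter ℕ : Filter ℕ), p.eval (f m') = 0 := by
        rw [← hker (fun m' => p.eval (f m')), ul_Q_eval Q]
        exact hp
      have h2 : ∃ b ∈ (p.roots.toFinset : Set L),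
          ∀ᶠ m' in (Filter.hyperfilter ℕ : Filter ℕ), f m' = b := by
        refine (Ultrafilter.eventually_exists_mem_iff p.roots.toFinset.finite_toSet).mp ?_
        filter_upwards [h1] with m' hm'
        refine ⟨f m', ?_, rfl⟩
        rw [Finset.mem_coe, Multiset.mem_toFinset, Polynomial.mem_roots hp0]
        exact hm'
      obtain ⟨b, -, hb⟩ := h2
      refine ⟨b, ?_⟩
      rw [halgL, ← sub_eq_zero, ← map_sub, hker]
      filter_upwards [hb] with m' hm'
      show b - f m' = 0
      rw [hm', sub_self]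
    choose P hP using fun j l => hconst _ (halg j l)
    have hPαβ : P α β ≠ 0 := by
      intro h0
      apply hαβ
      rw [← hP α β, h0, map_zero]
    have hdiag : ∀ j, P j j = 0 := by
      intro j
      apply (algebraMap L Ω).injective
      rw [hP j j, map_zero]
      ring
    have hne : α ≠ β := by
      rintro rfl
      exact hPαβ (hdiag α)
    refine ⟨α, β, fun l => P l β / P α β, fun l => P α l / P α β, hne, div_self hPαβ, ?_, ?_,
      div_self hPαβ, ?_⟩
    · show P β β / P α β = 0
      rw [hdiag, zero_div]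
    · show P α α / P α β = 0
      rw [hdiag, zero_div]
    have hrel : ∀ l, ∀ᶠ m' in (Filter.hyperfilter ℕ : Filter ℕ),
        X m' l = X m' α * (P l β / P α β) + X m' β * (P α l / P α β) := by
      intro l
      have h1 : (Q fun m' => X m' l - (X m' α * (P l β / P α β) + X m' β * (P α l / P α β))) =
          0 := by
        have h2 : (Q fun m' => X m' l - (X m' α * (P l β / P α β) +
            X m' β * (P α l / P α β))) = (Q fun m' => X m' l) -
            ((Q fun m' => X m' α) * algebraMap L Ω (P l β / P α β) +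
              (Q fun m' => X m' β) * algebraMap L Ω (P α l / P α β)) := by
          rw [halgL, halgL, ← map_mul, ← map_mul, ← map_add, ← map_sub]
          rfl
        rw [h2, map_div₀, map_div₀, hP, hP, hP]
        field_simp
        ring
      rw [hker] at h1
      filter_upwards [h1] with m' hm'
      exact sub_eq_zero.mp hm'
    have hrel' : ∀ᶠ m' in (Filter.hyperfilter ℕ : Filter ℕ), ∀ l,
        X m' l = X m' α * (P l β / P α β) + X m' β * (P α l / P α β) :=
      Filter.eventually_all.2 hrel
    have hinf' : {m' : ℕ | ∀ l, X m' l = X m' α * (P l β / P α β) +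
        X m' β * (P α l / P α β)}.Infinite := by
      intro hfin
      exact Filter.notMem_hyperfilter_of_finite hfin hrel'
    refine (hinf'.image hXi.injOn).mono ?_
    rintro _ ⟨m', hm', rfl⟩
    exact ⟨hXS m', hm'⟩
  · intro s r'
    show ulDer Q hQ hker (D s) (Q fun _ => ah r'.1 r'.2) = _
    rw [ulDer_apply]
    have h1 := hD s r'
    have h2 : (Q fun _ => D s (ah r'.1 r'.2)) = algebraMap L Ω (D s (ah r'.1 r'.2)) := rfl
    rw [h2, h1, map_sub, map_sum]
    congr 1
    · split_ifs
      · rw [map_one]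
      · rw [map_zero]
    · refine Finset.sum_congr rfl fun j _ => ?_
      split_ifs
      · rfl
      · rw [map_zero]
  · intro p b
    exact ⟨D p b, ulDer_apply Q hQ hker (D p) _⟩
  · intro p b
    rw [halgk, ulDer_apply]
    rw [hker]
    exact Filter.Eventually.of_forall fun m' => hDk p b
  · intro p s
    show ulDer Q hQ hker (D p) (Q _) = 0
    rw [ulDer_apply, hker]
    exact Filter.Eventually.of_forall fun m' => hDk p _
  · show Q (fun m' => X m' i₀) = 1
    have h1 : (fun m' => X m' i₀) = 1 := by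
      funext m'
      exact hX0 m'
    rw [h1, map_one]
  · intro h0
    rw [hker] at h0
    obtain ⟨m', hm'⟩ := h0.exists
    exact hG0 m' hm'
  · intro l
    show Q G * Q (fun m' => X m' l) ∈ _
    rw [← map_mul]
    exact hhc (Sum.inl l)
  · intro i hi
    rw [hform, hker]
    exact Filter.Eventually.of_forall fun m' => hXZ m' i hi
  · intro i hi h0
    rw [hform, hker] at h0
    obtain ⟨m', hm'⟩ := h0.exists
    exact hXU m' i hi hm'
  · intro i h0
    have h1 : form (fun J => algebraMap L Ω (ap i J)) (fun l => Q fun m' => X m' l) =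
      Q fun m' => form (ap i) (X m') := (ul_Q_form Q (ap i) X).symm
    rw [h1, hker] at h0
    obtain ⟨m', hm'⟩ := h0.exists
    exact hXP m' i hm'
  · intro i hi1 J
    rw [hform, ← ul_Q_mon Q X J, ← ul_Q_div Q hker _ _ fun m' => hXU m' i hi1]
    have h1 := hhc (Sum.inr ⟨i, J⟩)
    have h2 : h (Sum.inr ⟨i, J⟩) = fun m' => mon (X m') J / form (a i) (X m') := by
      funext m'
      exact if_pos hi1
    rw [h2] at h1
    exact h1
  · intro rr ss
    have h1 := RingHom.map_det Q (Matrix.of fun s t => fun m' => col D (X m') (ss t) (rr s))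
    have h2 : Q.mapMatrix (Matrix.of fun s t => fun m' => col D (X m') (ss t) (rr s)) =
        Matrix.of fun s t => col (fun p => ulDer Q hQ hker (D p)) (fun l => Q fun m' => X m' l)
          (ss t) (rr s) := by
      ext s t
      simp only [RingHom.mapMatrix_apply, Matrix.map_apply, Matrix.of_apply]
      rcases ss t with _ | p
      · rfl
      · exact (ulDer_apply Q hQ hker (D p) _).symm
    rw [← h2, ← h1, hker]
    refine Filter.Eventually.of_forall fun m' => ?_
    have h3 := RingHom.map_det (Pi.evalRingHom (fun _ : ℕ => L) m')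
      (Matrix.of fun s t => fun m' => col D (X m') (ss t) (rr s))
    have h4 : (Pi.evalRingHom (fun _ : ℕ => L) m').mapMatrix
        (Matrix.of fun s t => fun m' => col D (X m') (ss t) (rr s)) =
        Matrix.of fun s t => col D (X m') (ss t) (rr s) := rfl
    rw [h4, hXm m' rr ss] at h3
    exact h3

end Pool.Agent.Helper49.LV
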