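import Pool.Agent.Helper8.LV.DirOne
import Pool.Agent.Helper49.LV.KeyLine

/-! # LV-ROWS: the rows are bounded in one direction of the base (`C` empty)

The proof is the one of `Helper8.LG.dir_one` (unramified case). -/

set_option autoImplicit false

namespace Pool.Agent.Helper49.LV

open scoped BigOperators
open Pool.Agent.Helper8.LG
open Pool.Agent.Helper8.LV

/-- In one direction: the derivations, the corrections and the rows of all good points are bounded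
by one `Δ` at all valuation rings containing `intCl E₀ t`. -/
theorem dir_rows {L : Type*} [Field L] [CharZero L] {σ ι τ P : Type*} [Fintype σ]
    [DecidableEq σ] [Fintype ι] [DecidableEq ι] [Fintype τ] [Finite P]
    (d : ι → ℕ)
    (a : (i : ι) → Sym σ (d i) → L) (D : P → Derivation ℤ L L)
    (θ : τ → P → L) (Z : Finset ι)
    (E₀ : Subfield L) (t : L) (ht : Transcendental E₀ t)
    (hfin : FiniteDimensional (Subfield.closure ((E₀ : Set L) ∪ {t})) L)
    (hE₀ : ∀ p, ∀ f ∈ E₀, D p f ∈ E₀)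
    (hDt : ∀ p, D p t ∈ Subring.closure ((E₀ : Set L) ∪ {t}))
    (S : Set L) (hS : S.Finite) (hSa : ∀ p : Ix σ d, a p.1 p.2 ∈ S)
    (hSθ : ∀ j s, θ j s ∈ S) :
    ∃ Δ : L, Δ ≠ 0 ∧ Δ ∈ intCl E₀ t ∧ (∀ f ∈ S, Δ * f ∈ intCl E₀ t) ∧ ∀ x : σ → L,
      (∀ i ∉ Z, form (a i) x ≠ 0) →
      (∀ i ∉ Z, ∀ J : Sym σ (d i),
        IsIntegral (Subring.closure ((E₀ : Set L) ∪ S)) (mon x J / form (a i) x)) →
      ∀ O : ValuationSubring L, intCl E₀ t ≤ O.toSubring →
        Bdd D Δ O ∧ (∀ j s, Δ * θ j s ∈ O) ∧ ∀ i ∉ Z, RowBdd D Δ O x (form (a i)) 1 0 := by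
  obtain ⟨Δ₀, hΔc, hΔ0, hΔD, hΔS⟩ := exists_bound E₀ t ht hfin D hE₀ hDt S hS
  obtain ⟨hDed, hFrac⟩ := intCl_dedekind E₀ t ht hfin
  have hcl : Subring.closure ((E₀ : Set L) ∪ {t}) ≤ intCl E₀ t := by
    intro f hf
    exact isIntegral_algebraMap (R := Subring.closure ((E₀ : Set L) ∪ {t})) (x := ⟨f, hf⟩)
  have hE₀R : ∀ f ∈ E₀, f ∈ intCl E₀ t := fun f hf =>
    hcl (Subring.subset_closure (Or.inl hf))
  have hQ : ∀ n : ℕ, n ≠ 0 → ((n : L))⁻¹ ∈ intCl E₀ t := fun n _ =>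
    hE₀R _ (E₀.inv_mem (natCast_mem E₀ n))
  have hΔR : Δ₀ ∈ intCl E₀ t := hcl hΔc
  refine ⟨Δ₀ ^ 3, pow_ne_zero _ hΔ0, pow_mem hΔR 3, fun f hf => ?_, ?_⟩
  · have h1 : Δ₀ ^ 3 * f = Δ₀ ^ 2 * (Δ₀ * f) := by ring
    rw [h1]
    exact mul_mem (pow_mem hΔR 2) (hΔS f hf)
  intro x hne hint₀ O hO
  have hb : Bdd D Δ₀ O := bdd_of (intCl E₀ t) D Δ₀ hΔR hΔD O hO
  have hΔO : Δ₀ ∈ O := hb.1
  refine ⟨⟨pow_mem hΔO 3, fun p f hf => ?_⟩, fun j s => ?_, ?_⟩
  · have h1 : Δ₀ ^ 3 * D p f = Δ₀ ^ 2 * (Δ₀ * D p f) := by ring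
    rw [h1]
    exact mul_mem (pow_mem hΔO 2) (hb.2 p f hf)
  · have h1 : Δ₀ ^ 3 * θ j s = Δ₀ ^ 2 * (Δ₀ * θ j s) := by ring
    rw [h1]
    exact mul_mem (pow_mem hΔO 2) (hO (hΔS _ (hSθ j s)))
  intro i hi j hj hxO
  have hane : form (a i) x ≠ 0 := hne i hi
  have hgeq : form (a i) (fun l => x l / x j) = form (a i) x / x j ^ d i :=
    dirOne_form_div (a i) x (x j)
  have hg0 : form (a i) (fun l => x l / x j) ≠ 0 := by
    rw [hgeq]
    exact div_ne_zero hane (pow_ne_zero _ hj)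
  rw [pow_zero, div_one]
  refine ⟨by rw [mul_one]; exact pow_mem hΔO 3, fun p => ?_⟩
  rw [one_mul]
  have key : Δ₀ ^ 2 * (D p (form (a i) fun l => x l / x j) /
      form (a i) fun l => x l / x j) ∈ O := by
    by_cases hinv : Δ₀⁻¹ ∈ O
    · have hSO : ∀ f ∈ S, f ∈ O := fun f hf => by
        have h1 : f = Δ₀⁻¹ * (Δ₀ * f) := by
          rw [← mul_assoc, inv_mul_cancel₀ hΔ0, one_mul]
        rw [h1]
        exact mul_mem hinv (hO (hΔS f hf))
      have hA : Subring.closure ((E₀ : Set L) ∪ S) ≤ O.toSubring := by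
        rw [Subring.closure_le]
        rintro f (hf | hf)
        · exact hO (hE₀R f hf)
        · exact hSO f hf
      have hint := dirOne_int_mem O _ hA (hint₀ i hi (Sym.replicate (d i) j))
      rw [dirOne_mon_replicate] at hint
      have hgi : (form (a i) (fun l => x l / x j))⁻¹ ∈ O := by
        rw [hgeq, inv_div]
        exact hint
      have hgO : form (a i) (fun l => x l / x j) ∈ O := by
        have h1 := dirOne_form_mem O 1 (a i)
          (fun J => by rw [one_mul]; exact hSO _ (hSa ⟨i, J⟩)) _ hxO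
        rwa [one_mul] at h1
      have h2 : Δ₀ ^ 2 * (D p (form (a i) fun l => x l / x j) /
          form (a i) fun l => x l / x j) =
          Δ₀ * ((Δ₀ * D p (form (a i) fun l => x l / x j)) *
            (form (a i) (fun l => x l / x j))⁻¹) := by
        rw [div_eq_mul_inv]
        ring
      rw [h2]
      exact mul_mem hΔO (mul_mem (hb.2 p _ hgO) hgi)
    · have hb2 : Bdd D (Δ₀ ^ 2) O := by
        refine ⟨pow_mem hΔO 2, fun p f hf => ?_⟩
        have h1 : Δ₀ ^ 2 * D p f = Δ₀ * (Δ₀ * D p f) := by ring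
        rw [h1]
        exact mul_mem hΔO (hb.2 p f hf)
      refine log_of (intCl E₀ t) hQ D O hO (Δ₀ ^ 2) hb2 Δ₀ hΔ0 (Or.inr hinv) (fun q => ?_)
        _ hg0 p
      have h1 : Δ₀ ^ 2 * (D q Δ₀ / Δ₀) = Δ₀ * D q Δ₀ := by
        field_simp
      rw [h1]
      exact hb.2 q _ hΔO
  have h3 : Δ₀ ^ 3 * (D p (form (a i) fun l => x l / x j) /
      form (a i) fun l => x l / x j) =
      Δ₀ * (Δ₀ ^ 2 * (D p (form (a i) fun l => x l / x j) /
      form (a i) fun l => x l / x j)) := by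
    ring
  rw [h3]
  exact mul_mem hΔO key

end Pool.Agent.Helper49.LV
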